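import Pool.Agent.H25.BCE.Stmts

/-!
Module AA1 of board `bce` (MP_696a38_gt): the periodised Sol integrals are smooth functions on the
manifold.
-/

set_option autoImplicit false

namespace Pool.Agent.H67.BCE

open Pool.Agent.H25.BCE
open scoped ContDiff Topology
open Pool.Agent.H73 (P V ex ey pb solA solG mu0 Gam lin)

theorem solG_off {i : Fin 3} {x : P 3} (h : ¬ En x < dl) : solG mu0 dl 0 i x = 0 := by
  apply Pool.Agent.H73.solG_zero
  intro hc
  exact h (hc 2 (by decide) (by decide))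

theorem solG_dk (hDIN : DINStmt) (i : Fin 3) (l : ℤ) (a : ℝ × ℝ) (x : P 3) :
    solG mu0 dl 0 i (dk l 0 a 0 x) = solG mu0 dl 0 i x := by
  unfold Pool.Agent.H73.solG
  have e : (fun j => solA mu0 0 j (dk l 0 a 0 x)) = fun j => solA mu0 0 j x :=
    funext fun j => hDIN j l a x
  rw [e, hDIN i l a x]

theorem per_solG (hPER : PERStmt) (hBLD : BLDStmt) (hBLF : BLFStmt) (i : Fin 3) :
    ContDiff ℝ ∞ (AA i) ∧
    (∀ (r : ℤ × Gam) (x : P 3), En (x + sh r) < dl → AA i x = solG mu0 dl 0 i (x + sh r)) ∧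
    (∀ x : P 3, (∀ r : ℤ × Gam, ¬ En (x + sh r) < dl) → AA i x = 0) := by
  have hcont : Continuous En := (Pool.Agent.H73.solA_contDiff (k := 0) mu0 2).continuous
  have h := hPER (ℤ × Gam) (fun r x => x + sh r) {x | En x < dl} (solG mu0 dl 0 i)
    (isOpen_lt hcont continuous_const)
    (fun r => contDiff_id.add contDiff_const)
    (fun r r' x h1 h2 => hBLD x r r' h1 h2) hBLF
    (Pool.Agent.H73.solG_contDiff (k := 0) mu0 dl i) (fun x hx => solG_off hx)
  exact ⟨h.1, fun r x hx => h.2.1 r x hx, fun x hx => h.2.2 x hx⟩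

theorem AA1_thm (hPER : PERStmt) (hBLD : BLDStmt) (hBLF : BLFStmt) (hDIN : DINStmt)
    (hINV : INVStmt) : AA1Stmt := by
  refine ⟨fun i => ⟨(per_solG hPER hBLD hBLF i).1, ?_⟩, fun i r x hx =>
    (per_solG hPER hBLD hBLF i).2.1 r x hx, ?_, ?_⟩
  · intro g hg x
    exact hINV (solG mu0 dl 0 i) (fun l a x => solG_dk hDIN i l a x) g hg x
  · intro i x hx
    exact (per_solG hPER hBLD hBLF i).2.2 x fun r hr => hx ⟨r, hr⟩
  · intro i x
    by_cases hx : ∃ r : ℤ × Gam, En (x + sh r) < dl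
    · obtain ⟨r, hr⟩ := hx
      rw [(per_solG hPER hBLD hBLF i).2.1 r x hr]
      exact Pool.Agent.H73.solG_nonneg (k := 0) mu0 dl i _
    · rw [(per_solG hPER hBLD hBLF i).2.2 x fun r hr => hx ⟨r, hr⟩]

end Pool.Agent.H67.BCE
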